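import Pool.Agent.H964.CW.Stm2

/-! # Project CW, MBK: a block from a mildly bad weight -/

set_option autoImplicit false

open MeasureTheory ProbabilityTheory Filter Finset

namespace Pool.Agent.H784.CW

open Pool.Agent.H964.QC Pool.Agent.H964.CW

/-! ## Asymptotic inequalities -/

theorem ev_rpow_small {a K ε : ℝ} (ha : a < 0) (hε : 0 < ε) :
    ∀ᶠ x : ℝ in atTop, K * x ^ a ≤ ε := by
  have h := (tendsto_rpow_neg_atTop (y := -a) (by linarith)).const_mul K
  rw [mul_zero, neg_neg] at h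
  exact h.eventually (eventually_le_nhds hε)

theorem ev_exp_small {b K ε δ : ℝ} (hb : 0 < b) (hδ : 0 < δ) (hε : 0 < ε) :
    ∀ᶠ x : ℝ in atTop, K * Real.exp (-(δ * x ^ b)) ≤ ε := by
  have h1 : Tendsto (fun x : ℝ => δ * x ^ b) atTop atTop :=
    (tendsto_rpow_atTop hb).const_mul_atTop hδ
  have h2 := (Real.tendsto_exp_neg_atTop_nhds_zero.comp h1).const_mul K
  rw [mul_zero] at h2
  exact h2.eventually (eventually_le_nhds hε)

theorem ev_exp_rpow {b K ε δ s : ℝ} (hb : 0 < b) (hδ : 0 < δ) (hε : 0 < ε) :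
    ∀ᶠ x : ℝ in atTop, K * Real.exp (-(δ * x ^ b)) ≤ ε * x ^ (-s) := by
  have h1 := (tendsto_rpow_mul_exp_neg_mul_atTop_nhds_zero (s / b) δ hδ).comp
    (tendsto_rpow_atTop hb)
  have h2 := h1.const_mul K
  rw [mul_zero] at h2
  filter_upwards [h2.eventually (eventually_le_nhds hε), eventually_gt_atTop (0 : ℝ)] with x hx hx0
  simp only [Function.comp] at hx
  have e1 : (x ^ b) ^ (s / b) = x ^ s := by
    rw [← Real.rpow_mul hx0.le]
    congr 1
    field_simp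
  have e2 : -δ * x ^ b = -(δ * x ^ b) := by ring
  rw [e1, e2] at hx
  rw [Real.rpow_neg hx0.le, ← div_eq_mul_inv, le_div_iff₀ (Real.rpow_pos_of_pos hx0 s)]
  linarith

theorem ev_pow_exp {K b : ℝ} (hb : 0 < b) (n : ℕ) :
    ∀ᶠ x : ℝ in atTop, K * x ^ n ≤ Real.exp (b * x) := by
  have hK : 0 < |K| + 1 := by positivity
  have h := (isLittleO_pow_exp_pos_mul_atTop n hb).def (c := 1 / (|K| + 1)) (by positivity)
  filter_upwards [h, eventually_ge_atTop (0 : ℝ)] with x hx hx0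
  have h1 : 0 ≤ x ^ n := by positivity
  rw [Real.norm_of_nonneg h1, Real.norm_of_nonneg (Real.exp_nonneg _), one_div,
    inv_mul_eq_div, le_div_iff₀ hK] at hx
  have h2 : K * x ^ n ≤ |K| * x ^ n := mul_le_mul_of_nonneg_right (le_abs_self K) h1
  linarith

theorem ev_R1 (D : ℝ) : ∀ᶠ R : ℝ in atTop,
    D * Real.exp (Real.sqrt R) * Real.exp (R / 4) * R ^ 20 ≤ Real.exp (R - 1 / 2) := by
  filter_upwards [ev_pow_exp (K := D * Real.exp (1 / 2)) (b := 1 / 4) (by norm_num) 20,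
    eventually_ge_atTop (16 : ℝ)] with R h1 h2
  have h3 : Real.sqrt R ≤ R / 4 := by
    rw [Real.sqrt_le_left (by linarith)]
    nlinarith
  have h4 : Real.exp (Real.sqrt R) ≤ Real.exp (R / 4) := Real.exp_le_exp.mpr h3
  have h5 : D * R ^ 20 ≤ Real.exp (R / 4 - 1 / 2) := by
    have e : Real.exp (R / 4 - 1 / 2) * Real.exp (1 / 2) = Real.exp (1 / 4 * R) := by
      rw [← Real.exp_add]
      congr 1
      ring
    rw [← e] at h1
    have h6 : (D * R ^ 20) * Real.exp (1 / 2) ≤ Real.exp (R / 4 - 1 / 2) * Real.exp (1 / 2) := by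
      linarith
    exact le_of_mul_le_mul_right h6 (Real.exp_pos _)
  calc D * Real.exp (Real.sqrt R) * Real.exp (R / 4) * R ^ 20
      = (D * R ^ 20) * (Real.exp (Real.sqrt R) * Real.exp (R / 4)) := by ring
    _ ≤ Real.exp (R / 4 - 1 / 2) * (Real.exp (R / 4) * Real.exp (R / 4)) := by
        refine mul_le_mul h5 (mul_le_mul_of_nonneg_right h4 (Real.exp_nonneg _)) (by positivity)
          (Real.exp_nonneg _)
    _ = Real.exp (3 * R / 4 - 1 / 2) := by
        rw [← Real.exp_add, ← Real.exp_add]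
        congr 1
        ring
    _ ≤ Real.exp (R - 1 / 2) := Real.exp_le_exp.mpr (by linarith)

theorem ev_R3 (D : ℝ) : ∀ᶠ R : ℝ in atTop,
    (D * R ^ 20) ^ 100 * Real.exp (-(Real.exp (R / 80)) / 2) ≤ 1 / 4 := by
  obtain ⟨N, hN⟩ : ∃ N : ℕ, N = 20 * 100 := ⟨_, rfl⟩
  filter_upwards [ev_pow_exp (K := 4 * D ^ 100) (b := 1 / 2) (by norm_num) N,
    ev_pow_exp (K := 1) (b := 1 / 80) (by norm_num) 1,
    eventually_ge_atTop (0 : ℝ)] with R h1 h2 h0
  have e1 : (D * R ^ 20) ^ 100 = D ^ 100 * R ^ N := by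
    rw [mul_pow, ← pow_mul, hN]
  rw [one_mul, pow_one] at h2
  have e2 : 1 / 80 * R = R / 80 := by ring
  rw [e2] at h2
  have h3 : Real.exp (-(Real.exp (R / 80)) / 2) ≤ Real.exp (-(1 / 2 * R)) :=
    Real.exp_le_exp.mpr (by linarith)
  have h4 : 0 ≤ D ^ 100 * R ^ N := by
    refine mul_nonneg ?_ (pow_nonneg h0 N)
    have : D ^ 100 = (D ^ 50) ^ 2 := by rw [← pow_mul]
    rw [this]
    exact sq_nonneg _
  rw [e1]
  refine (mul_le_mul_of_nonneg_left h3 h4).trans ?_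
  rw [Real.exp_neg, ← div_eq_mul_inv, div_le_iff₀ (Real.exp_pos _)]
  linarith

/-! ## The size of the blocks -/

theorem t_facts (hRR : S_RR) (t T : ℕ) (hR : 1 ≤ RR t) :
    1 ≤ t ∧ Real.exp (RR t - 1 / 2) ≤ Real.sqrt t ∧
    Real.log (1 + (T : ℝ) / t) ≤ 1 + 4 * (RR (t + T) - RR t) ∧ RR T ≤ RR (t + T) ∧
    0 ≤ RR (t + T) - RR t := by
  obtain ⟨h1, h2, h3, h4, h5, h6, h7⟩ := hRR
  have ht : 1 ≤ t := by
    by_contra hc
    have h0 : t = 0 := by omega
    rw [h0] at hR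
    unfold RR at hR
    simp at hR
    linarith
  have ht' : (1 : ℝ) ≤ t := by exact_mod_cast ht
  refine ⟨ht, ?_, ?_, ?_, ?_⟩
  · have h8 := h7 t ht
    refine Real.le_sqrt_of_sq_le ?_
    rw [← Real.exp_nat_mul]
    rw [← Real.le_log_iff_exp_le (by linarith)]
    push_cast
    linarith
  · have h8 := h6 t (t + T) (by omega)
    have h9 : 1 + (T : ℝ) / t ≤ 2 * ((((t + T : ℕ) : ℝ) + 1) / ((t : ℝ) + 1)) := by
      have e1 : 1 + (T : ℝ) / t = ((t : ℝ) + T) / t := by field_simp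
      rw [e1, ← mul_div_assoc, div_le_div_iff₀ (by linarith) (by linarith)]
      push_cast
      have hT : (0 : ℝ) ≤ T := Nat.cast_nonneg T
      nlinarith
    have hT : (0 : ℝ) ≤ (T : ℝ) / t := by positivity
    have h10 := Real.log_le_log (by linarith) h9
    rw [Real.log_mul (by norm_num) (by positivity)] at h10
    have h11 : Real.log 2 ≤ 1 := by
      have := Real.log_two_lt_d9
      linarith
    linarith
  · have h8 := h6 T (t + T) (by omega)
    have h9 : 0 ≤ Real.log ((((t + T : ℕ) : ℝ) + 1) / ((T : ℝ) + 1)) := by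
      refine Real.log_nonneg ?_
      rw [one_le_div (by positivity)]
      push_cast
      linarith
    linarith
  · have h8 := h6 t (t + T) (by omega)
    have h9 : 0 ≤ Real.log ((((t + T : ℕ) : ℝ) + 1) / ((t : ℝ) + 1)) := by
      refine Real.log_nonneg ?_
      rw [one_le_div (by positivity)]
      push_cast
      have : (0 : ℝ) ≤ T := Nat.cast_nonneg T
      linarith
    linarith

/-- long blocks -/
theorem t_long (hRR : S_RR) {t T : ℕ} {ℓ : ℝ} (ht : 1 ≤ t) (hℓ : 1 ≤ ℓ)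
    (h : ℓ ≤ RR (t + T) - RR t) : t ≤ T ∧ Real.exp ℓ * t ≤ (t + T : ℕ) := by
  obtain ⟨h1, h2, h3, h4, h5, h6, h7⟩ := hRR
  have ht' : (1 : ℝ) ≤ t := by exact_mod_cast ht
  have h8 := h5 t (t + T) ht (by omega)
  have hT : (0 : ℝ) ≤ T := Nat.cast_nonneg T
  have h9 : 2 * ℓ ≤ Real.log (((t + T : ℕ) : ℝ) / t) := by linarith
  rw [Real.le_log_iff_exp_le (by push_cast; positivity), le_div_iff₀ (by linarith)] at h9
  have h10 : Real.exp ℓ ≤ Real.exp (2 * ℓ) := Real.exp_le_exp.mpr (by linarith)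
  have h11 : Real.exp ℓ * t ≤ Real.exp (2 * ℓ) * t :=
    mul_le_mul_of_nonneg_right h10 (by linarith)
  refine ⟨?_, h11.trans h9⟩
  have h12 : (2 : ℝ) ≤ Real.exp (2 * ℓ) := by
    have := Real.add_one_le_exp (2 * ℓ)
    linarith
  have h13 : (2 : ℝ) * t ≤ ((t + T : ℕ) : ℝ) :=
    (mul_le_mul_of_nonneg_right h12 (by linarith)).trans h9
  have h14 : 2 * t ≤ t + T := by exact_mod_cast h13
  omega

/-! ## One random variable -/

theorem cheb {Ω : Type} [MeasurableSpace Ω] (P : Measure Ω) [IsProbabilityMeasure P] (X : Ω → ℝ)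
    (v : ℝ) (hX : MemLp X 2 P) (hv : ∫ ω, X ω ^ 2 ∂P ≤ v) (q : ℝ) (hq : q ≤ 1 / 2) :
    P.real {ω | 1 + X ω < q} ≤ 4 * v := by
  have h1 : Integrable (fun ω => X ω ^ 2) P := hX.integrable_sq
  have h2 := mul_meas_ge_le_integral_of_nonneg (μ := P) (f := fun ω => X ω ^ 2)
    (Eventually.of_forall fun ω => sq_nonneg _) h1 (1 / 4)
  have h3 : P.real {ω | 1 + X ω < q} ≤ P.real {ω | 1 / 4 ≤ X ω ^ 2} := by
    refine measureReal_mono ?_
    intro ω hω
    change 1 + X ω < q at hω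
    change 1 / 4 ≤ X ω ^ 2
    nlinarith
  linarith

theorem log_sq_le {x : ℝ} (hx : -(1 / 2) ≤ x) : Real.log (1 + x) ^ 2 ≤ 4 * x ^ 2 := by
  have h0 : 0 < 1 + x := by linarith
  have h1 : Real.log (1 + x) ≤ x := by
    have := Real.log_le_sub_one_of_pos h0
    linarith
  have h2 : x / (1 + x) ≤ Real.log (1 + x) := by
    have h3 := Real.one_sub_inv_le_log_of_pos h0
    have e : 1 - (1 + x)⁻¹ = x / (1 + x) := by field_simp; ring
    linarith
  rcases le_total 0 x with h | h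
  · have h3 : 0 ≤ Real.log (1 + x) := Real.log_nonneg (by linarith)
    nlinarith
  · have h3 : 2 * x ≤ x / (1 + x) := by
      rw [le_div_iff₀ h0]
      nlinarith
    nlinarith

/-- second moment of the logarithm -/
theorem log_moment {Ω : Type} [MeasurableSpace Ω] (P : Measure Ω) [IsProbabilityMeasure P]
    (X : Ω → ℝ) (v τ : ℝ) (hm : Measurable X) (hX : MemLp X 2 P) (hX1 : ∀ ω, -1 < X ω)
    (hv : ∫ ω, X ω ^ 2 ∂P ≤ v) (hl : MemLp (fun ω => Real.log (1 + X ω)) 2 P)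
    (hτ : ∫ ω in {ω | 1 + X ω < 1 / 2}, (max (-Real.log (1 + X ω)) 0) ^ 2 ∂P ≤ τ) :
    ∫ ω, Real.log (1 + X ω) ^ 2 ∂P ≤ 4 * v + τ := by
  have hA : MeasurableSet {ω | 1 + X ω < 1 / 2} :=
    measurableSet_lt (measurable_const.add hm) measurable_const
  have hi : Integrable (fun ω => Real.log (1 + X ω) ^ 2) P := hl.integrable_sq
  have hi2 : Integrable (fun ω => 4 * X ω ^ 2) P := hX.integrable_sq.const_mul 4
  rw [← integral_add_compl hA hi]
  have h1 : ∫ ω in {ω | 1 + X ω < 1 / 2}, Real.log (1 + X ω) ^ 2 ∂P =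
      ∫ ω in {ω | 1 + X ω < 1 / 2}, (max (-Real.log (1 + X ω)) 0) ^ 2 ∂P := by
    refine setIntegral_congr_fun hA (fun ω hω => ?_)
    change 1 + X ω < 1 / 2 at hω
    have h2 : Real.log (1 + X ω) ≤ 0 :=
      Real.log_nonpos (by linarith [hX1 ω]) (by linarith)
    change Real.log (1 + X ω) ^ 2 = (max (-Real.log (1 + X ω)) 0) ^ 2
    rw [max_eq_left (by linarith), neg_sq]
  have h2 : ∫ ω in {ω | 1 + X ω < 1 / 2}ᶜ, Real.log (1 + X ω) ^ 2 ∂P ≤
      ∫ ω in {ω | 1 + X ω < 1 / 2}ᶜ, 4 * X ω ^ 2 ∂P := by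
    refine setIntegral_mono_on hi.integrableOn hi2.integrableOn hA.compl (fun ω hω => ?_)
    have h3 : ¬ (1 + X ω < 1 / 2) := hω
    exact log_sq_le (by linarith)
  have h3 : ∫ ω in {ω | 1 + X ω < 1 / 2}ᶜ, 4 * X ω ^ 2 ∂P ≤ ∫ ω, 4 * X ω ^ 2 ∂P :=
    setIntegral_le_integral hi2 (Eventually.of_forall fun ω => by positivity)
  have h4 : ∫ ω, 4 * X ω ^ 2 ∂P = 4 * ∫ ω, X ω ^ 2 ∂P := integral_const_mul _ _
  rw [h1]
  linarith

/-! ## The theorem -/

theorem one_add_XX (hDUAL : S_DUAL) {V : Type} [Fintype V] [DecidableEq V] {C0 : ℝ} {N0 : ℕ}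
    (W : Wlk V C0 N0) (w : V → ℝ) (hw1 : ∑ x, w x = 1) (x : ℕ → V → ℝ) (T : ℕ) :
    1 + XX W w T x T = ∑ y, w y * Zr W x T y := by
  rw [(hDUAL V C0 N0 W x w 0 T).2.2.1, hw1]
  ring

theorem XX_facts (hMEAS : S_MEAS) (hDUAL : S_DUAL) {V : Type} [Fintype V] [DecidableEq V] {C0 : ℝ}
    {N0 : ℕ} (W : Wlk V C0 N0) (w : V → ℝ) (hw0 : ∀ x, 0 ≤ w x) (hw1 : ∑ x, w x = 1)
    {Ω : Type} [MeasurableSpace Ω] (P : Measure Ω) [IsProbabilityMeasure P] (s2 κ : ℝ)
    (η : ℕ → V → Ω → ℝ) (hη : Noise P s2 κ η) (T : ℕ) :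
    Measurable (fun ω => XX W w T (cfg η ω) T) ∧ MemLp (fun ω => XX W w T (cfg η ω) T) 2 P ∧
    ∀ ω, -1 < XX W w T (cfg η ω) T := by
  obtain ⟨-, hpos, -, hZm, -, -, hcm, hZ4, -, -, -⟩ := hMEAS V C0 N0 W Ω P s2 κ η hη
  have he : ∀ ω, XX W w T (cfg η ω) T = (∑ y, w y * Zr W (cfg η ω) T y) - 1 := by
    intro ω
    rw [← one_add_XX hDUAL W w hw1 (cfg η ω) T]
    ring
  refine ⟨?_, ?_, ?_⟩
  · simp only [he]
    refine Measurable.sub ?_ measurable_const
    exact Finset.measurable_sum _ fun y _ => ((hZm T y).comp hcm).const_mul (w y)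
  · simp only [he]
    have h4 : MemLp (fun ω => (∑ y, w y * Zr W (cfg η ω) T y) - 1) 4 P :=
      (memLp_finsetSum _ fun y _ => (hZ4 T y).const_mul (w y)).sub (memLp_const 1)
    exact h4.mono_exponent (by norm_num)
  · intro ω
    have h1 : 0 < ∑ y, w y * Zr W (cfg η ω) T y := by
      refine Finset.sum_pos' (fun y _ => mul_nonneg (hw0 y)
        (hpos (cfg η ω) T y fun n v => hη.gt n v ω).le) ?_
      by_contra hc
      push Not at hc
      have h2 : ∑ x, w x = 0 := by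
        refine Finset.sum_eq_zero fun y _ => ?_
        have h3 := hc y (Finset.mem_univ y)
        have h4 := hpos (cfg η ω) T y fun n v => hη.gt n v ω
        have h5 := hw0 y
        by_contra h6
        have h7 : 0 < w y := lt_of_le_of_ne h5 (Ne.symm h6)
        have h8 := mul_pos h7 h4
        linarith
      rw [h2] at hw1
      exact zero_ne_one hw1
    rw [he ω]
    linarith

theorem t_MBK : S_MBK := by
  intro hLTB hAP hTLI hMEAS hM2 hDUAL hRR hUU hOV hGS hBC2 hCLN hB2 _ C0 κ c hC0 hκ hc1 hc2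
  obtain ⟨CL, hCL1, hLTB⟩ := hLTB C0 0 hC0 le_rfl
  obtain ⟨CA, hCA1, hAP⟩ := hAP C0 0 hC0 le_rfl
  obtain ⟨CT, hCT1, hTLI⟩ := hTLI
  obtain ⟨CG, hCG1, hGS'⟩ := hGS C0 hC0
  obtain ⟨CB, hCB1, hB2'⟩ := hB2 hRR hUU hOV hGS hM2 C0 κ hC0 hκ
  obtain ⟨CC, hCC1, hBC'⟩ := hBC2 hRR hOV hCLN hMEAS hM2 hDUAL C0 κ hC0 hκ
  have he0 : 0 < e0 := by unfold e0; positivity
  have hc0 : 0 < c := by linarith
  -- inequalities for large `L`
  have E1 : ∀ᶠ L : ℝ in atTop, 16 * (1 + CB) * (CL * 11 ^ 8) ^ 2 * L ^ (c * 17 - 1) ≤ 1 / 4 :=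
    ev_rpow_small (by linarith) (by norm_num)
  have E2 : ∀ᶠ L : ℝ in atTop, CT * Real.exp (-(1 * L ^ (c * 8 * (1 / 20)))) ≤ 1 / 4 :=
    ev_exp_small (by positivity) one_pos (by norm_num)
  have E3 : ∀ᶠ L : ℝ in atTop, 4 * (CG + 2) * L ^ (c - 1) ≤ 1 :=
    ev_rpow_small (by linarith) one_pos
  have E4 : ∀ᶠ L : ℝ in atTop, CC * Real.exp (-((1 / 2 * (1 / 2) ^ e0) * L ^ e0)) ≤
      1 / 4 * L ^ (-(3 / 4) : ℝ) :=
    ev_exp_rpow he0 (by positivity) (by norm_num)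
  have E5 : ∀ᶠ L : ℝ in atTop, 1 * Real.exp (-((1 / 4 * (1 / 2) ^ e0) * L ^ e0)) ≤ 1 / 2 :=
    ev_exp_small he0 (by positivity) (by norm_num)
  have E6 : ∀ᶠ L : ℝ in atTop, 16 * (1 + CB) * L ^ (c - 1 / 4) ≤ 1 / 4 :=
    ev_rpow_small (by linarith) (by norm_num)
  obtain ⟨a1, ha1⟩ := Filter.eventually_atTop.mp
    (E1.and (E2.and (E3.and (E4.and (E5.and E6)))))
  -- inequalities for large `R`
  obtain ⟨a2, ha2⟩ := Filter.eventually_atTop.mp ((ev_R1 CL).and
    ((ev_pow_exp (K := CL * 11 ^ 8) (b := 1 / 8) (by norm_num) 4).and (ev_R3 CA)))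
  refine ⟨|a1| + (|a2| + 1) ^ 20 + CL + CA + CC + 2, ?_, ?_⟩
  · have h1 : 0 ≤ |a1| := abs_nonneg _
    have h2 : 0 ≤ (|a2| + 1) ^ 20 := by positivity
    linarith
  intro N0 M _ W hW Ω _ P _ s2 η w t T L L' hs2 hη hL hL' hL0 hR hl h4t hgood
  have hnn1 : 0 ≤ |a1| := abs_nonneg _
  have hnn2 : 0 ≤ (|a2| + 1) ^ 20 := by positivity
  have hL'1 : 1 ≤ L' := by linarith
  obtain ⟨S, hS⟩ : ∃ S : ℝ, S = 1 / s2 := ⟨_, rfl⟩
  obtain ⟨R, hRd⟩ : ∃ R : ℝ, R = RR t := ⟨_, rfl⟩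
  obtain ⟨l, hld⟩ : ∃ l : ℝ, l = RR (t + T) - RR t := ⟨_, rfl⟩
  rw [← hS] at hL hL' hR
  rw [← hld] at hl
  have hRnn : ∀ n, 0 ≤ RR n := fun n => by
    unfold RR
    exact Finset.sum_nonneg fun i _ => (hRR.1 i).le
  have hSL' : L' ≤ S := by
    have := hRnn (t + T)
    linarith
  have hS1 : 1 ≤ S := hL'1.trans hSL'
  have hRS : S ^ (1 / 20 : ℝ) ≤ R := by rw [hRd]; exact hR
  have hR1 : 1 ≤ R := (Real.one_le_rpow hS1 (by norm_num)).trans hRS
  obtain ⟨ht, hsqrt, hlog, hRT, hl0⟩ := t_facts hRR t T (by rw [← hRd]; exact hR1)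
  rw [← hRd] at hsqrt
  rw [← hld] at hlog hl0
  have hLL' : L' ≤ L := by
    have : L = L' + l := by rw [hL, hL', hld]; ring
    linarith
  have hLe : L = L' + l := by rw [hL, hL', hld]; ring
  have hL1 : 1 ≤ L := hL'1.trans hLL'
  have hLpos : 0 < L := by linarith
  have hSL : L ≤ S := by
    have := hRnn t
    linarith
  have hSR : S ≤ R ^ 20 := by
    have h1 : (S ^ (1 / 20 : ℝ)) ^ 20 = S := by
      rw [← Real.rpow_natCast, ← Real.rpow_mul (by linarith)]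
      norm_num
    rw [← h1]
    exact pow_le_pow_left₀ (by positivity) hRS 20
  have hRa2 : a2 ≤ R := by
    refine le_trans ?_ hRS
    have h1 : (|a2| + 1) ^ 20 ≤ S := by linarith
    have h2 : ((|a2| + 1) ^ 20) ^ (1 / 20 : ℝ) ≤ S ^ (1 / 20 : ℝ) :=
      Real.rpow_le_rpow hnn2 h1 (by norm_num)
    have h3 : ((|a2| + 1) ^ 20) ^ (1 / 20 : ℝ) = |a2| + 1 := by
      rw [← Real.rpow_natCast, ← Real.rpow_mul (by positivity)]
      norm_num
    rw [h3] at h2
    have := le_abs_self a2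
    linarith
  have hF := ha2 R hRa2
  have hG := ha1 L (by
    have := le_abs_self a1
    linarith)
  clear ha1 ha2 E1 E2 E3 E4 E5 E6
  -- the logarithmic size of the badness
  obtain ⟨ℓ, hℓ⟩ : ∃ ℓ : ℝ, ℓ = L ^ c := ⟨_, rfl⟩
  rw [← hℓ] at hl hgood
  have hℓ1 : 1 ≤ ℓ := by rw [hℓ]; exact Real.one_le_rpow hL1 hc0.le
  have hℓR : ℓ ≤ Real.sqrt R := by
    rw [hℓ, Real.sqrt_eq_rpow]
    calc L ^ c ≤ S ^ c := Real.rpow_le_rpow hLpos.le hSL hc0.le
      _ ≤ S ^ (1 / 40 : ℝ) := Real.rpow_le_rpow_of_exponent_le hS1 hc2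
      _ = (S ^ (1 / 20 : ℝ)) ^ (1 / 2 : ℝ) := by
          rw [← Real.rpow_mul (by linarith)]
          norm_num
      _ ≤ R ^ (1 / 2 : ℝ) := Real.rpow_le_rpow (by positivity) hRS (by norm_num)
  have hℓL : 4 * (CG + 2) * ℓ ≤ L := by
    have h1 : L ^ (c - 1) = ℓ / L := by rw [hℓ, Real.rpow_sub_one hLpos.ne']
    have G3 := hG.2.2.1
    rw [h1, ← mul_div_assoc, div_le_one hLpos] at G3
    exact G3
  have hL2 : L / 2 ≤ L' := by
    have h12 : 12 * ℓ ≤ 4 * (CG + 2) * ℓ :=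
      mul_le_mul_of_nonneg_right (by linarith) (by linarith)
    linarith
  have hB1 : 1 ≤ Real.exp ℓ := Real.one_le_exp (by linarith)
  have hlB : Real.log (Real.exp ℓ) = ℓ := Real.log_exp ℓ
  have htT : t + T ≤ N0 := by omega
  -- the weight
  have hw0 := hgood.nonneg
  have hw1 := hgood.sum
  obtain ⟨hXm, hX2, hX1⟩ := XX_facts hMEAS hDUAL W w hw0 hw1 P s2 κ η hη.1 T
  have h1X := fun ω => one_add_XX hDUAL W w hw1 (cfg η ω) T
  -- the second moment
  obtain ⟨v, hv⟩ : ∃ v : ℝ, v = 4 * (1 + CB) * (ℓ / L) := ⟨_, rfl⟩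
  have hEX : ∫ ω, (XX W w T (cfg η ω) T) ^ 2 ∂P ≤ v := by
    have h1 := (hB2' (ZMod M × ZMod M) N0 W Ω P s2 η w t T (Real.exp ℓ) L' hs2 hη.1 ht hB1 htT
      (by rw [hL', hS]) hL'1 hgood).1
    refine h1.trans ?_
    rw [hlB, ← hld, hv, div_le_iff₀ (by linarith)]
    have h2 : l + CB * (1 + ℓ) ≤ (1 + CB) * (2 * ℓ) := by
      have h2' : CB * (1 + ℓ) ≤ CB * (2 * ℓ) :=
        mul_le_mul_of_nonneg_left (by linarith) (by linarith)
      linarith
    have h3 : (1 + CB) * (2 * ℓ) = 4 * (1 + CB) * (ℓ / L) * (L / 2) := by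
      field_simp
      ring
    have h4 : 4 * (1 + CB) * (ℓ / L) * (L / 2) ≤ 4 * (1 + CB) * (ℓ / L) * L' :=
      mul_le_mul_of_nonneg_left hL2 (by positivity)
    linarith
  have hv0 : 0 ≤ v := by rw [hv]; positivity
  have hcheb := fun q hq => cheb P (fun ω => XX W w T (cfg η ω) T) v hX2 hEX q hq
  refine ⟨?_, ?_⟩
  · -- the logarithm
    have hs2A : s2 ≤ 1 / CA := by
      rw [le_div_iff₀ (by linarith)]
      have h1 : CA ≤ S := by linarith
      rw [hS, le_div_iff₀ hs2] at h1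
      linarith
    have hs2L : s2 ≤ 1 / CL := by
      rw [le_div_iff₀ (by linarith)]
      have h1 : CL ≤ S := by linarith
      rw [hS, le_div_iff₀ hs2] at h1
      linarith
    have hsup : ∀ x, w x ≠ 0 → |X1 x| ≤ t ∧ |X2 x| ≤ t := fun x hx =>
      hW.cls_rng t x (hgood.cls x hx)
    obtain ⟨hlg4, hlgm⟩ := hAP N0 M W hW Ω P s2 κ η w t T hs2 hs2A hη hw0 hw1 hsup htT (by
      rw [neg_zero, ← hS]
      linarith)
    have hlgZ : ∀ ω, lgZ W T w (cfg η ω) = Real.log (1 + XX W w T (cfg η ω) T) := fun ω => by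
      rw [h1X ω]
      rfl
    simp only [hlgZ] at hlg4 hlgm
    have hlg2 : MemLp (fun ω => Real.log (1 + XX W w T (cfg η ω) T)) 2 P :=
      hlg4.mono_exponent (by norm_num)
    obtain ⟨u0, hu0⟩ : ∃ u0 : ℝ, u0 = CL * (11 * ℓ) ^ 8 := ⟨_, rfl⟩
    obtain ⟨u1, hu1⟩ : ∃ u1 : ℝ, u1 = Real.exp (R / 8) := ⟨_, rfl⟩
    have hℓ8 : 1 ≤ ℓ ^ 8 := one_le_pow₀ hℓ1
    have hu0' : u0 = CL * 11 ^ 8 * ℓ ^ 8 := by rw [hu0]; ring
    have hu0ℓ : ℓ ^ 8 ≤ u0 := by
      rw [hu0']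
      exact le_mul_of_one_le_left (by linarith) (by linarith)
    have hu01 : 1 ≤ u0 := hℓ8.trans hu0ℓ
    have hu0u1 : u0 ≤ u1 := by
      rw [hu0', hu1]
      have h1 : ℓ ^ 8 ≤ (Real.sqrt R) ^ 8 := pow_le_pow_left₀ (by linarith) hℓR 8
      have h2 : (Real.sqrt R) ^ 8 = R ^ 4 := by
        have : (Real.sqrt R) ^ 8 = ((Real.sqrt R) ^ 2) ^ 4 := by ring
        rw [this, Real.sq_sqrt (by linarith)]
      have h3 : CL * 11 ^ 8 * ℓ ^ 8 ≤ CL * 11 ^ 8 * R ^ 4 := by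
        rw [← h2]
        exact mul_le_mul_of_nonneg_left h1 (by positivity)
      have e : 1 / 8 * R = R / 8 := by ring
      have F2 := hF.2.1
      rw [e] at F2
      linarith
    have htail : ∀ u, u0 ≤ u → u ≤ u1 →
        P.real {ω | u < -Real.log (1 + XX W w T (cfg η ω) T)} ≤
          Real.exp (-(u ^ (1 / 10 : ℝ))) := by
      intro u hu hu'
      have h1 := hLTB N0 M W hW Ω P s2 κ η w t T (Real.exp ℓ) u hs2 hs2L hη.1 ht hB1 htT hgood
        (by rw [neg_zero, ← hS]; linarith) (by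
          rw [hlB]
          refine le_trans ?_ hu
          rw [hu0]
          refine mul_le_mul_of_nonneg_left ?_ (by linarith)
          refine pow_le_pow_left₀ ?_ ?_ 8
          · have h2 : 0 ≤ Real.log (1 + (T : ℝ) / t) := by
              refine Real.log_nonneg ?_
              have : 0 ≤ (T : ℝ) / t := by positivity
              linarith
            linarith
          · linarith) (by
          have hu2 : u ^ 2 ≤ Real.exp (R / 4) := by
            have h2 : u ^ 2 ≤ u1 ^ 2 := pow_le_pow_left₀ (by linarith) hu' 2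
            have h3 : u1 ^ 2 = Real.exp (R / 4) := by
              rw [hu1, ← Real.exp_nat_mul]
              congr 1
              push_cast
              ring
            rw [← h3]
            exact h2
          have hBR : Real.exp ℓ ≤ Real.exp (Real.sqrt R) := Real.exp_le_exp.mpr hℓR
          calc CL * Real.exp ℓ * u ^ 2 / s2 = CL * Real.exp ℓ * u ^ 2 * S := by
                rw [hS]; ring
            _ ≤ CL * Real.exp (Real.sqrt R) * Real.exp (R / 4) * R ^ 20 := by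
                refine mul_le_mul ?_ hSR (by linarith) (by positivity)
                refine mul_le_mul ?_ hu2 (by positivity) (by positivity)
                exact mul_le_mul_of_nonneg_left hBR (by linarith)
            _ ≤ Real.exp (R - 1 / 2) := hF.1
            _ ≤ Real.sqrt t := hsqrt)
      refine le_trans (measureReal_mono ?_) h1
      intro ω hω
      change u < -Real.log (1 + XX W w T (cfg η ω) T) at hω
      change ∑ z, w z * Zr W (cfg η ω) T z < Real.exp (-u)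
      rw [← h1X ω, ← Real.log_lt_iff_lt_exp (by linarith [hX1 ω])]
      linarith
    have hA : MeasurableSet {ω | 1 + XX W w T (cfg η ω) T < 1 / 2} :=
      measurableSet_lt (measurable_const.add hXm) measurable_const
    have hneg4 : MemLp (fun ω => -Real.log (1 + XX W w T (cfg η ω) T)) 4 P := hlg4.neg
    have hnegm : ∫ ω, (-Real.log (1 + XX W w T (cfg η ω) T)) ^ 4 ∂P ≤ (CA / s2) ^ 200 := by
      have e : ∀ ω, (-Real.log (1 + XX W w T (cfg η ω) T)) ^ 4 =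
          (Real.log (1 + XX W w T (cfg η ω) T)) ^ 4 := fun ω => by ring
      simp only [e]
      exact hlgm
    have hτ := hTLI Ω P (fun ω => -Real.log (1 + XX W w T (cfg η ω) T)) ((CA / s2) ^ 200) u0 u1
      {ω | 1 + XX W w T (cfg η ω) T < 1 / 2} hneg4 hnegm hu01 hu0u1 htail hA
    have hlm := log_moment P (fun ω => XX W w T (cfg η ω) T) v _ hXm hX2 hX1 hEX hlg2 hτ
    refine ⟨hlg2, ?_⟩
    change ∫ ω, Real.log (1 + XX W w T (cfg η ω) T) ^ 2 ∂P ≤ 1
    refine hlm.trans ?_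
    -- the four terms
    have hℓ17 : L ^ (c * 17 - 1) = ℓ ^ 17 / L := by
      rw [hℓ, Real.rpow_sub_one hLpos.ne', Real.rpow_mul hLpos.le]
      norm_num
    have G1 := hG.1
    rw [hℓ17] at G1
    have hPA := hcheb (1 / 2) le_rfl
    have hT1 : u0 ^ 2 * P.real {ω | 1 + XX W w T (cfg η ω) T < 1 / 2} ≤ 1 / 4 := by
      have h1 : u0 ^ 2 * P.real {ω | 1 + XX W w T (cfg η ω) T < 1 / 2} ≤ u0 ^ 2 * (4 * v) :=
        mul_le_mul_of_nonneg_left hPA (sq_nonneg _)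
      have h2 : u0 ^ 2 * (4 * v) = 16 * (1 + CB) * (CL * 11 ^ 8) ^ 2 * (ℓ ^ 17 / L) := by
        rw [hu0', hv]
        ring
      linarith
    have hT0 : 4 * v ≤ 1 / 4 := by
      have h1 : (1 : ℝ) ≤ u0 ^ 2 := one_le_pow₀ hu01
      have h2 : u0 ^ 2 * (4 * v) = 16 * (1 + CB) * (CL * 11 ^ 8) ^ 2 * (ℓ ^ 17 / L) := by
        rw [hu0', hv]
        ring
      have h3 : 4 * v ≤ u0 ^ 2 * (4 * v) := le_mul_of_one_le_left (by linarith) h1
      linarith
    have hT2 : CT * Real.exp (-(u0 ^ (1 / 20 : ℝ))) ≤ 1 / 4 := by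
      refine le_trans ?_ hG.2.1
      refine mul_le_mul_of_nonneg_left (Real.exp_le_exp.mpr (neg_le_neg ?_)) (by linarith)
      have h1 : (ℓ ^ 8) ^ (1 / 20 : ℝ) ≤ u0 ^ (1 / 20 : ℝ) :=
        Real.rpow_le_rpow (by positivity) hu0ℓ (by norm_num)
      have h2 : (ℓ ^ 8) ^ (1 / 20 : ℝ) = L ^ (c * 8 * (1 / 20)) := by
        rw [hℓ, Real.rpow_mul hLpos.le, Real.rpow_mul hLpos.le]
        congr 1
        rw [← Real.rpow_natCast]
        norm_num
      rw [one_mul, ← h2]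
      exact h1
    have hT3 : Real.sqrt ((CA / s2) ^ 200) * Real.exp (-(u1 ^ (1 / 10 : ℝ)) / 2) ≤ 1 / 4 := by
      have h1 : Real.sqrt ((CA / s2) ^ 200) = (CA / s2) ^ 100 := by
        have : (CA / s2) ^ 200 = ((CA / s2) ^ 100) ^ 2 := by rw [← pow_mul]
        rw [this, Real.sqrt_sq (by positivity)]
      have h2 : (CA / s2) ^ 100 ≤ (CA * R ^ 20) ^ 100 := by
        refine pow_le_pow_left₀ (by positivity) ?_ 100
        have : CA / s2 = CA * S := by rw [hS]; ring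
        rw [this]
        exact mul_le_mul_of_nonneg_left hSR (by linarith)
      have h3 : u1 ^ (1 / 10 : ℝ) = Real.exp (R / 80) := by
        rw [hu1, ← Real.exp_mul]
        congr 1
        ring
      rw [h1, h3]
      exact (mul_le_mul_of_nonneg_right h2 (Real.exp_nonneg _)).trans hF.2.2
    linarith
  · -- goodness
    intro hlong
    rw [← hℓ, ← hld] at hlong
    obtain ⟨htT', hexp⟩ := t_long hRR ht hℓ1 (by rw [← hld]; exact hlong)
    have hL'0 : 0 ≤ L' := by linarith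
    have hpow : (1 / 2) ^ e0 * L ^ e0 ≤ L' ^ e0 := by
      rw [← Real.mul_rpow (by norm_num) hLpos.le]
      exact Real.rpow_le_rpow (by positivity) (by linarith) he0.le
    have hL'e : 0 ≤ L' ^ e0 := Real.rpow_nonneg hL'0 _
    have h1 := hBC' (ZMod M × ZMod M) N0 W Ω P s2 η w t T L' (Real.exp (L' ^ e0))
      (Real.exp (-(L' ^ e0 / 4))) hs2 hη.1 (ht.trans htT') htT' h4t (by rw [hL', hS]) (by linarith)
      (Real.one_le_exp hL'e) (Real.exp_pos _) (by
        rw [← Real.exp_zero]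
        exact Real.exp_le_exp.mpr (by linarith)) hw0 hw1 hgood.cls
      (hgood.spread.trans hexp) (by
        have h2 := (hGS' (ZMod M × ZMod M) N0 W w t T (Real.exp ℓ) ht hB1 htT hgood).1
        rw [hlB, ← hld] at h2
        refine h2.trans ?_
        have h2' : CG * (1 + ℓ) ≤ CG * (2 * ℓ) :=
          mul_le_mul_of_nonneg_left (by linarith) (by linarith)
        linarith)
    have h3 : CC / (Real.exp (L' ^ e0) * Real.exp (-(L' ^ e0 / 4)) ^ 2) ≤
        1 / 4 * L ^ (-(3 / 4) : ℝ) := by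
      refine le_trans ?_ hG.2.2.2.1
      have e1 : Real.exp (L' ^ e0) * Real.exp (-(L' ^ e0 / 4)) ^ 2 = Real.exp (L' ^ e0 / 2) := by
        rw [← Real.exp_nat_mul, ← Real.exp_add]
        congr 1
        push_cast
        ring
      rw [e1, div_eq_mul_inv, ← Real.exp_neg]
      refine mul_le_mul_of_nonneg_left (Real.exp_le_exp.mpr (neg_le_neg ?_)) (by linarith)
      linarith
    have h4 : Real.exp (-(L' ^ e0 / 4)) ≤ 1 / 2 := by
      refine le_trans ?_ hG.2.2.2.2.1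
      rw [one_mul]
      refine Real.exp_le_exp.mpr (neg_le_neg ?_)
      linarith
    have h5 := hcheb _ h4
    have h6 : 4 * v ≤ 1 / 4 * L ^ (-(3 / 4) : ℝ) := by
      have e1 : ℓ / L = L ^ (c - 1 / 4) * L ^ (-(3 / 4) : ℝ) := by
        rw [hℓ, ← Real.rpow_sub_one hLpos.ne', ← Real.rpow_add hLpos]
        ring_nf
      have h7 : 0 ≤ L ^ (-(3 / 4) : ℝ) := Real.rpow_nonneg hLpos.le _
      have h8 := mul_le_mul_of_nonneg_right hG.2.2.2.2.2 h7
      rw [hv, e1]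
      linarith
    have h7 : 0 ≤ L ^ (-(3 / 4) : ℝ) := Real.rpow_nonneg hLpos.le _
    change P.real {ω | ¬ Good W (t + T) (Real.exp (L' ^ e0))
      (fun z => fwd W (cfg η ω) T w z / ∑ y, fwd W (cfg η ω) T w y)} ≤ _
    linarith

end Pool.Agent.H784.CW
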