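import Pool.Agent.H964.CW.Stm

/-! # Project CW, SUR: the walk with drift stays in the tube -/

set_option autoImplicit false

open MeasureTheory ProbabilityTheory Filter Finset

namespace Pool.Agent.H784.CW

open Pool.Agent.H964.QC Pool.Agent.H964.CW

theorem q1_one {M : ℕ} [NeZero M] (k : ZMod M) :
    q1 M 1 k = ((if k = 1 then 1 else 0) + (if k = -1 then 1 else 0)) / 2 := by
  change ((if k - 1 = 0 then (1 : ℝ) else 0) + (if k + 1 = 0 then (1 : ℝ) else 0)) / 2 = _
  simp only [sub_eq_zero, add_eq_zero_iff_eq_neg]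

theorem q1_nonneg {M : ℕ} [NeZero M] (k : ZMod M) : 0 ≤ q1 M 1 k := by
  rw [q1_one]
  refine div_nonneg (add_nonneg ?_ ?_) (by norm_num)
  · split_ifs <;> norm_num
  · split_ifs <;> norm_num

theorem q1_ne {M : ℕ} [NeZero M] {k : ZMod M} (h : q1 M 1 k ≠ 0) : k = 1 ∨ k = -1 := by
  by_contra hc
  push Not at hc
  apply h
  rw [q1_one, if_neg hc.1, if_neg hc.2]
  norm_num

/-- one step of the walk on the cycle -/
theorem q1_sum {M : ℕ} [NeZero M] (F : ZMod M → ℝ) (y : ZMod M) :
    ∑ u, q1 M 1 (u - y) * F u = (F (1 + y) + F (-1 + y)) / 2 := by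
  have h : ∀ u, q1 M 1 (u - y) * F u =
      ((if u = 1 + y then F u else 0) + (if u = -1 + y then F u else 0)) / 2 := by
    intro u
    rw [q1_one]
    simp only [sub_eq_iff_eq_add]
    split_ifs <;> ring
  simp only [h]
  rw [← Finset.sum_div, Finset.sum_add_distrib, Finset.sum_ite_eq' , Finset.sum_ite_eq']
  simp

variable {C0 : ℝ} {N0 M : ℕ} [NeZero M]

/-- the kernel with drift, applied to a function of the first coordinate -/
theorem ka_sum {W : Wlk (ZMod M × ZMod M) C0 N0} (hW : IsTor W) (a : ℝ) (y : ZMod M × ZMod M)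
    (g : ZMod M → ℝ) :
    ∑ z, ka W a y z * g z.1 = ((1 + a) * g (1 + y.1) + (1 - a) * g (-1 + y.1)) / 2 := by
  have hM := hW.hM
  have hne : (-1 : ZMod M) ≠ 1 := by
    intro h
    have h1 : ((2 : ℕ) : ZMod M) = 0 := by
      have : (1 : ZMod M) + 1 = 0 := by
        nth_rewrite 1 [← h]
        ring
      push_cast
      rw [← this]
      ring
    rw [ZMod.natCast_eq_zero_iff] at h1
    have h2 := Nat.le_of_dvd (by norm_num) h1
    omega
  have h1 : ∀ u v : ZMod M, ka W a y (u, v) * g u =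
      (q1 M 1 (u - y.1) * ((1 + a * sg (u - y.1)) * g u)) * (q1 M 1 (v - y.2) * 1) := by
    intro u v
    unfold ka
    rw [hW.K_eq]
    ring
  rw [Fintype.sum_prod_type]
  simp only [h1]
  have h2 : ∀ u : ZMod M, ∑ v : ZMod M, (q1 M 1 (u - y.1) * ((1 + a * sg (u - y.1)) * g u)) *
      (q1 M 1 (v - y.2) * 1) = q1 M 1 (u - y.1) * ((1 + a * sg (u - y.1)) * g u) := by
    intro u
    rw [← Finset.mul_sum, q1_sum (fun _ => (1 : ℝ)) y.2]
    norm_num
  simp only [h2]
  rw [q1_sum (fun u => (1 + a * sg (u - y.1)) * g u) y.1]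
  simp only [add_sub_cancel_right]
  have e1 : sg (1 : ZMod M) = 1 := if_pos rfl
  have e2 : sg (-1 : ZMod M) = -1 := if_neg hne
  rw [e1, e2]
  ring

theorem ka_nonneg {W : Wlk (ZMod M × ZMod M) C0 N0} (a : ℝ) (ha : |a| ≤ 1) (y z : ZMod M × ZMod M) :
    0 ≤ ka W a y z := by
  unfold ka
  refine mul_nonneg (W.K_nonneg _ _ _) ?_
  have h := abs_le.mp ha
  unfold sg
  split_ifs
  · linarith [h.1]
  · linarith [h.2]

theorem dz_nonneg {W : Wlk (ZMod M × ZMod M) C0 N0} {A : ℕ → ℝ} {χ : ℕ → ZMod M × ZMod M → ℝ}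
    (hA : ∀ j, |A j| ≤ 1) (hχ : ∀ j z, 0 ≤ χ j z) (j : ℕ) :
    ∀ y, 0 ≤ dz W A χ (fun _ _ => 0) j y := by
  induction j with
  | zero => exact fun _ => zero_le_one
  | succ j ih =>
    intro y
    change 0 ≤ ∑ z, ka W (A (j + 1)) y z * χ j z *
      ((1 + (0 : ℝ)) * dz W A χ (fun _ _ => 0) j z)
    refine Finset.sum_nonneg fun z _ => ?_
    exact mul_nonneg (mul_nonneg (ka_nonneg _ (hA _) _ _) (hχ _ _))
      (mul_nonneg (by norm_num) (ih z))

/-- the first coordinate after one step, far from the antipode -/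
theorem X1_step {W : Wlk (ZMod M × ZMod M) C0 N0} (hW : IsTor W) {x : ZMod M} {e : ℤ}
    (he : e = 1 ∨ e = -1) (hx : |x.valMinAbs| + 1 ≤ 2 * N0) :
    ((e : ZMod M) + x).valMinAbs = e + x.valMinAbs := by
  have hM := hW.hM
  rw [ZMod.valMinAbs_spec]
  refine ⟨?_, ?_⟩
  · rw [Int.cast_add, ZMod.coe_valMinAbs]
  · have h1 := abs_le.mp (le_refl |x.valMinAbs|)
    have hMz : (M : ℤ) = 4 * N0 + 4 := by exact_mod_cast hM
    rw [Set.mem_Ioc, hMz]
    rcases he with h | h
    · rw [h]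
      constructor
      · linarith [h1.1]
      · linarith [h1.2]
    · rw [h]
      constructor
      · linarith [h1.1]
      · linarith [h1.2]

/-- **SUR.** The walk with drift stays in the tube. -/
theorem t_SUR : S_SUR := by
  intro C0 N0 M _ W hW A c b χ hA hc hb hb0 hχ0 hχ1 j
  induction j with
  | zero =>
    intro y _
    change 1 - (((X1 y : ℝ) - c 0) / b 0) ^ 2 - ∑ i ∈ Finset.range 0, 1 / (b i) ^ 2 ≤ 1
    rw [Finset.sum_range_zero]
    have := sq_nonneg (((X1 y : ℝ) - c 0) / b 0)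
    linarith
  | succ j ih =>
    intro y hy
    obtain ⟨S, hS⟩ : ∃ S : ℝ, S = ∑ i ∈ Finset.range j, 1 / (b i) ^ 2 := ⟨_, rfl⟩
    rw [Finset.sum_range_succ, ← hS]
    rw [← hS] at ih
    have hS0 : 0 ≤ S := by
      rw [hS]
      exact Finset.sum_nonneg fun i _ => by positivity
    obtain ⟨a, ha⟩ : ∃ a : ℝ, a = A (j + 1) := ⟨_, rfl⟩
    have ha1 : |a| ≤ 1 := by rw [ha]; exact hA _
    have hy1 : |y.1.valMinAbs| + 1 ≤ 2 * N0 := by
      have h : |y.1.valMinAbs| + ((j + 1 : ℕ) : ℤ) ≤ 2 * N0 := hy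
      push_cast at h
      have : (0 : ℤ) ≤ j := Int.natCast_nonneg j
      linarith
    have hp : ((1 : ZMod M) + y.1).valMinAbs = 1 + y.1.valMinAbs := by
      have h := X1_step hW (x := y.1) (e := 1) (Or.inl rfl) hy1
      rw [Int.cast_one] at h
      exact h
    have hm : ((-1 : ZMod M) + y.1).valMinAbs = -1 + y.1.valMinAbs := by
      have h := X1_step hW (x := y.1) (e := -1) (Or.inr rfl) hy1
      rw [Int.cast_neg, Int.cast_one] at h
      exact h
    let g : ZMod M → ℝ := fun u => 1 - (((u.valMinAbs : ℝ) - c j) / b j) ^ 2 - S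
    have hterm : ∀ z : ZMod M × ZMod M, ka W a y z * g z.1 ≤
        ka W a y z * χ j z * ((1 + (0 : ℝ)) * dz W A χ (fun _ _ => 0) j z) := by
      intro z
      have hk := ka_nonneg (W := W) a ha1 y z
      rcases hk.eq_or_lt with h0 | h0
      · rw [← h0]
        simp
      · rw [mul_assoc]
        refine mul_le_mul_of_nonneg_left ?_ hk
        have hz : z.1 = 1 + y.1 ∨ z.1 = -1 + y.1 := by
          have h1 : q1 M 1 (z.1 - y.1) ≠ 0 := by
            intro h2
            apply h0.ne'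
            unfold ka
            rw [hW.K_eq, h2, zero_mul, zero_mul]
          rcases q1_ne h1 with h2 | h2
          · exact Or.inl (sub_eq_iff_eq_add.mp h2)
          · exact Or.inr (sub_eq_iff_eq_add.mp h2)
        have hX : |X1 z| + (j : ℤ) ≤ 2 * N0 := by
          have h1 : |X1 z| ≤ |X1 y| + 1 := by
            unfold X1
            rcases hz with h2 | h2
            · rw [h2, hp]
              refine (abs_add_le _ _).trans ?_
              rw [abs_one]
              linarith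
            · rw [h2, hm]
              refine (abs_add_le _ _).trans ?_
              rw [abs_neg, abs_one]
              linarith
          push_cast at hy
          linarith
        have hd := dz_nonneg (W := W) hA hχ0 j z
        rw [add_zero, one_mul]
        by_cases ht : |(X1 z : ℝ) - c j| < b j
        · rw [hχ1 j z ht, one_mul]
          exact ih z hX
        · refine le_trans ?_ (mul_nonneg (hχ0 j z) hd)
          rw [not_lt] at ht
          have h3 : 1 ≤ (((X1 z : ℝ) - c j) / b j) ^ 2 := by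
            rw [div_pow, one_le_div (by have := hb0 j; positivity), ← sq_abs ((X1 z : ℝ) - c j)]
            exact pow_le_pow_left₀ (hb0 j).le ht 2
          change 1 - (((X1 z : ℝ) - c j) / b j) ^ 2 - S ≤ 0
          linarith
    have hsum : ∑ z, ka W a y z * g z.1 ≤ dz W A χ (fun _ _ => 0) (j + 1) y := by
      change _ ≤ ∑ z, ka W (A (j + 1)) y z * χ j z *
        ((1 + (0 : ℝ)) * dz W A χ (fun _ _ => 0) j z)
      rw [← ha]
      exact Finset.sum_le_sum fun z _ => hterm z
    refine le_trans ?_ hsum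
    rw [ka_sum hW a y g]
    have hcj : c j = c (j + 1) + a := by rw [ha]; exact hc j
    have hgp : g (1 + y.1) = 1 - ((((1 + y.1.valMinAbs : ℤ) : ℝ) - c j) / b j) ^ 2 - S := by
      change 1 - (((((1 : ZMod M) + y.1).valMinAbs : ℝ) - c j) / b j) ^ 2 - S = _
      rw [hp]
    have hgm : g (-1 + y.1) = 1 - ((((-1 + y.1.valMinAbs : ℤ) : ℝ) - c j) / b j) ^ 2 - S := by
      change 1 - (((((-1 : ZMod M) + y.1).valMinAbs : ℝ) - c j) / b j) ^ 2 - S = _
      rw [hm]
    rw [hgp, hgm, hcj]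
    push_cast
    obtain ⟨m, hmd⟩ : ∃ m : ℝ, m = (y.1.valMinAbs : ℝ) := ⟨_, rfl⟩
    have hX1 : (X1 y : ℝ) = m := by rw [hmd]; rfl
    rw [hX1, ← hmd]
    have hbj := hb0 j
    have hbj1 := hb0 (j + 1)
    have hbb : b (j + 1) ≤ b j := hb (Nat.le_succ j)
    have hinv : 1 / (b j) ^ 2 ≤ 1 / (b (j + 1)) ^ 2 :=
      one_div_le_one_div_of_le (by positivity) (pow_le_pow_left₀ hbj1.le hbb 2)
    have hmul : (m - c (j + 1)) ^ 2 * (1 / (b j) ^ 2) ≤
        (m - c (j + 1)) ^ 2 * (1 / (b (j + 1)) ^ 2) :=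
      mul_le_mul_of_nonneg_left hinv (sq_nonneg _)
    have ha2 : 0 ≤ a ^ 2 * (1 / (b j) ^ 2) := by positivity
    have e1 : ((1 + a) * (1 - ((1 + m - (c (j + 1) + a)) / b j) ^ 2 - S) +
        (1 - a) * (1 - ((-1 + m - (c (j + 1) + a)) / b j) ^ 2 - S)) / 2 =
        1 - S - ((m - c (j + 1)) ^ 2 + 1 - a ^ 2) * (1 / (b j) ^ 2) := by
      field_simp
      ring
    rw [e1]
    have e2 : ((m - c (j + 1)) / b (j + 1)) ^ 2 = (m - c (j + 1)) ^ 2 * (1 / (b (j + 1)) ^ 2) := by
      rw [div_pow]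
      ring
    rw [e2]
    nlinarith

end Pool.Agent.H784.CW
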